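import Pool.Agent.MP_a28cf0_nt.Cub.Unfold

/-!
Definitions for the decoupling theorem: for every form `f` and almost every form `g`,
`∫ ψ f² g² - ∫ ψ f²` is small.
-/

set_option autoImplicit false

namespace Pool.Agent.MP_a28cf0_nt.Dec

open MeasureTheory Complex Filter Topology Set
open scoped ENNReal MatrixGroups ComplexConjugate
open Pool.Agent.MP_a28cf0_nt.Cub

/-! ### Hyperbolic plane -/

/-- the Moebius action `(a w + b) / (c w + d)` -/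
noncomputable def mb (A : E) (w : ℂ) : ℂ := pr (mul A (w, 1))

/-- the rotation matrix -/
noncomputable def kk (θ : ℝ) : E := rot θ one

/-- hyperbolic area -/
noncomputable def muH : Measure ℂ :=
  (volume.restrict Up).withDensity fun z => ENNReal.ofReal (1 / z.im ^ 2)

structure Eig (t : ℝ) (f : ℂ → ℝ) : Prop where
  meas : Measurable f
  c2 : ContDiffOn ℝ 2 f Up
  eq : ∀ z : ℂ, 0 < z.im →
    -(z.im ^ 2) * (iteratedFDeriv ℝ 2 f z ![(1 : ℂ), 1] + iteratedFDeriv ℝ 2 f z ![I, I])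
      = (1 / 4 + t ^ 2) * f z

def Inv {α : Type} (F : ℂ → α) : Prop :=
  ∀ z : ℂ, 0 < z.im → F (z + 1) = F z ∧ F (-z⁻¹) = F z

structure Form (t : ℝ) (f : ℂ → ℝ) : Prop extends Eig t f where
  inv : Inv f
  int : IntegrableOn (fun z : ℂ => f z ^ 2 / z.im ^ 2) Fd
  nrm : ∫ z in Fd, f z ^ 2 / z.im ^ 2 = Real.pi / 3

def Cusp (f : ℂ → ℝ) : Prop :=
  ∀ y : ℝ, 0 < y → ∫ x in (0 : ℝ)..1, f ((x : ℂ) + (y : ℂ) * I) = 0

/-- orthogonal families of normalised forms -/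
structure Ort {ι : Type} (s : Finset ι) (g : ι → ℂ → ℝ) (t : ι → ℝ) : Prop where
  form : ∀ j ∈ s, Form (t j) (g j)
  orth : ∀ i ∈ s, ∀ j ∈ s, i ≠ j → ∫ z in Fd, g i z * g j z / z.im ^ 2 = 0

/-- orthogonal families of normalised cusp forms with parameters in `[0, T]` -/
structure Fam {ι : Type} (s : Finset ι) (g : ι → ℂ → ℝ) (t : ι → ℝ) (T : ℝ) : Prop
    extends Ort s g t where
  cusp : ∀ j ∈ s, Cusp (g j)
  nn : ∀ j ∈ s, 0 ≤ t j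
  le : ∀ j ∈ s, t j ≤ T

noncomputable def jj (θ : ℝ) (z : ℂ) : ℂ := z * (Real.sin θ : ℂ) + (Real.cos θ : ℂ)

/-- the Poisson kernel `Im (k_θ z)` -/
noncomputable def PP (θ : ℝ) (z : ℂ) : ℝ := z.im / normSq (jj θ z)

/-- the Busemann function -/
noncomputable def bb (θ : ℝ) (z : ℂ) : ℝ := Real.log (PP θ z)

/-- the unit vector of the direction `θ` seen from `z` -/
noncomputable def ep (z : ℂ) (θ : ℝ) : ℂ := conj (jj θ z) / jj θ z

/-- the point pair invariant -/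
noncomputable def qq (z w : ℂ) : ℝ := normSq (z - w) / (z.im * w.im)

/-- a small invariant bump -/
noncomputable def be (z w : ℂ) : ℝ :=
  if 0 < z.im ∧ 0 < w.im then Real.smoothTransition (2 - 100000 * qq z w) else 0

noncomputable def ph (T θ : ℝ) (z : ℂ) : ℂ := Complex.exp (((T * bb θ z : ℝ) : ℂ) * I)

def B0 : Set ℂ := Metric.closedBall I (1 / 20)

def U0 : Set ℂ := Metric.closedBall I (1 / 50)

/-- the spherical function -/
noncomputable def ph0 (t : ℝ) (w : ℂ) : ℝ :=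
  (∫ θ in Ioc (0 : ℝ) (2 * Real.pi), √(PP θ w) * Real.cos (t * bb θ w)) / (2 * Real.pi)

/-- the two point form of the spherical function -/
noncomputable def Ph (T : ℝ) (z w : ℂ) : ℂ :=
  ∫ θ in Ioc (0 : ℝ) (2 * Real.pi),
    ((√(PP θ z) * √(PP θ w) : ℝ) : ℂ) * ph T θ z * conj (ph T θ w)

noncomputable def sg (w : ℂ) : ℝ := ∫ u, be I u * be w u ∂muH

/-- the eigenvalue of the reproducing kernel -/
noncomputable def hh (T t : ℝ) : ℂ := ∫ w, (sg w : ℂ) * Ph T I w * (ph0 t w : ℂ) ∂muH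

/-! ### Local analysis -/

abbrev Y : Type := ℂ × ℝ

noncomputable def nY (m : Measure ℂ) : Measure Y :=
  m.prod (volume.restrict (Ioc (0 : ℝ) (2 * Real.pi)))

noncomputable def nYY (m : Measure ℂ) : Measure (Y × Y) := (nY m).prod (nY m)

instance (m : Measure ℂ) [IsFiniteMeasure m] : IsFiniteMeasure (nY m) := by
  unfold nY; infer_instance

instance (m : Measure ℂ) [IsFiniteMeasure m] : IsFiniteMeasure (nYY m) := by
  unfold nYY; infer_instance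

structure C3 (M : ℝ) (χ : ℂ → ℂ) : Prop where
  c3 : ContDiff ℝ 3 χ
  bd : ∀ k : ℕ, k ≤ 3 → ∀ z, ‖iteratedFDeriv ℝ k χ z‖ ≤ M

structure Amp (M : ℝ) (A : Y → ℂ → ℂ) : Prop where
  meas : Measurable fun p : Y × ℂ => A p.1 p.2
  c3 : ∀ y, C3 M (A y)
  supp : ∀ y z, z ∉ B0 → A y z = 0

/-- bounded and measurable -/
structure Bd {X : Type} [MeasurableSpace X] (w : X → ℂ) : Prop where
  meas : Measurable w
  bd : ∃ M : ℝ, ∀ y, ‖w y‖ ≤ M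

noncomputable def n2 {X : Type} [MeasurableSpace X] (μ : Measure X) (w : X → ℂ) : ℝ :=
  ∫ y, ‖w y‖ ^ 2 ∂μ

noncomputable def EE (A : Y → ℂ → ℂ) (T : ℝ) (y : Y) (z : ℂ) : ℂ := A y z * ph T y.2 z

noncomputable def ext (m : Measure ℂ) (A : Y → ℂ → ℂ) (T : ℝ) (w : Y → ℂ) (z : ℂ) : ℂ :=
  ∫ y, EE A T y z * w y ∂nY m

noncomputable def res (A : Y → ℂ → ℂ) (T : ℝ) (F : ℂ → ℂ) (y : Y) : ℂ :=
  ∫ z in B0, conj (EE A T y z) * F z

noncomputable def E2 (A : Y → ℂ → ℂ) (T : ℝ) (p : Y × Y) (z : ℂ) : ℂ :=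
  EE A T p.1 z * conj (EE A T p.2 z)

noncomputable def ext2 (m : Measure ℂ) (A : Y → ℂ → ℂ) (T : ℝ) (k : Y × Y → ℂ) (z : ℂ) : ℂ :=
  ∫ p, E2 A T p z * k p ∂nYY m

noncomputable def tens (w w' : Y → ℂ) (p : Y × Y) : ℂ := w p.1 * conj (w' p.2)

/-- the kernel of the four linear form -/
noncomputable def NN (A : Y → ℂ → ℂ) (χ : ℂ → ℂ) (t T : ℝ) (s₁ s₂ : ℂ) (p p' : Y × Y) : ℂ :=
  ∫ z, χ z * E2 A t p (z + s₁) * E2 A T p' (z + s₂)

noncomputable def XX (m : Measure ℂ) (A : Y → ℂ → ℂ) (χ : ℂ → ℂ) (t T : ℝ) (s : ℂ)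
    (k k' : Y × Y → ℂ) : ℂ :=
  ∫ z, χ z * ext2 m A t k z * ext2 m A T k' (z + s)

/-- the phase of the four linear form -/
noncomputable def Ph4 (c₁ c₂ a₁ a₂ a₃ a₄ : ℝ) (s₁ s₂ z : ℂ) : ℝ :=
  c₁ * (bb a₁ (z + s₁) - bb a₂ (z + s₁)) + c₂ * (bb a₃ (z + s₂) - bb a₄ (z + s₂))

noncomputable def Jk (T a : ℝ) : ℝ := (1 + T * |Real.sin a|) ^ (-(5 / 4) : ℝ)

/-- families of packet coefficients with a Bessel inequality -/
structure Pack (m : Measure ℂ) (N T : ℝ) {ι : Type} (J : Finset ι) (w : ι → Y → ℂ) : Prop where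
  bd : ∀ j ∈ J, Bd (w j)
  bes : ∀ k : Y → ℂ, Bd k → ∑ j ∈ J, ‖∫ y, w j y * k y ∂nY m‖ ^ 2 ≤ N * T * n2 (nY m) k
  mass : ∑ j ∈ J, n2 (nY m) (w j) ≤ N * T ^ 2

/-- a cell of size `α / 2000` -/
structure Cell (M M' α : ℝ) (m : Measure ℂ) (A : Y → ℂ → ℂ) (χ₁ χ₂ : ℂ → ℂ) (z₀ : ℂ) : Prop where
  sub : m univ ≤ 1
  amp : Amp M A
  pos : 0 < α
  le : α ≤ 1
  c1 : C3 M' χ₁
  c2 : C3 M' χ₂
  s1 : ∀ z, α / 2000 < ‖z - z₀‖ → χ₁ z = 0
  s2 : ∀ z, α / 2000 < ‖z - z₀‖ → χ₂ z = 0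
  ctr : ‖z₀ - I‖ ≤ 1 / 100

/-- supported in directions within `α` of `θ` -/
def In (θ α : ℝ) (w : Y → ℂ) : Prop := ∀ y, w y ≠ 0 → |y.2 - θ| ≤ α

/-- a measurable set of directions within `α` of `θ` -/
structure Box (θ α : ℝ) (S : Set Y) : Prop where
  meas : MeasurableSet S
  near : ∀ y ∈ S, |y.2 - θ| ≤ α

/-- the exceptional configurations of four directions -/
def Sp (η lam : ℝ) (p p' q q' : ℂ) : Prop :=
  ‖(lam : ℂ) * (p - p') + (q - q')‖ < η ∧ ‖p * p' - q * q'‖ < η ∧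
    (‖p ^ 2 - p' ^ 2‖ < η ∨ ‖q + q'‖ < η)

/-- the boxes of directions -/
def Ik (n : ℕ) (k : Fin n) : Set Y :=
  {y | y.2 ∈ Ioc ((k : ℕ) * (2 * Real.pi / n)) (((k : ℕ) + 1) * (2 * Real.pi / n))}

noncomputable def mU : Measure ℂ := volume.restrict U0

open Classical in
noncomputable def A0 (y : Y) (z : ℂ) : ℂ :=
  if y.1 ∈ U0 then ((be z y.1 * √(PP y.2 z) : ℝ) : ℂ) else 0

noncomputable def Wf (T : ℝ) (F : ℂ → ℝ) (y : Y) : ℂ :=
  res A0 T (fun w => ((F w / w.im ^ 2 : ℝ) : ℂ)) y / ((y.1.im ^ 2 : ℝ) : ℂ)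

/-- Bessel inequality on the ball `B0` -/
def Bes {ι : Type} (N : ℝ) (s : Finset ι) (G : ι → ℂ → ℝ) : Prop :=
  ∀ k : ℂ → ℂ, Measurable k → (∃ M : ℝ, ∀ w ∈ B0, ‖k w‖ ≤ M) →
    ∑ j ∈ s, ‖∫ w in B0, k w * (G j w : ℂ)‖ ^ 2 ≤ N * ∫ w in B0, ‖k w‖ ^ 2

/-- at most `n` translates of a point lie in `S` -/
def Mult (S : Set ℂ) (n : ℝ) : Prop :=
  ∀ z ∈ Up, ∀ F : Finset SL(2, ℤ), (∀ γ ∈ F, mb (act γ one) z ∈ S) → (F.card : ℝ) ≤ n

/-! ### Quantum ergodicity -/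

structure Bump (m : ℂ → ℂ) : Prop where
  smooth : ContDiff ℝ (⊤ : ℕ∞) m
  supp : ∀ w, 1 / 50 < ‖w - I‖ → m w = 0

/-- `y ^ (1/2 - i T)` -/
noncomputable def yp (T : ℝ) (w : ℂ) : ℂ :=
  (√w.im : ℝ) * Complex.exp (((-(T * Real.log w.im) : ℝ) : ℂ) * I)

noncomputable def VV (m : ℂ → ℂ) (T : ℝ) (g : ℂ → ℝ) (M : E) : ℂ :=
  ∫ w, m w * yp T w * (g (mb M w) : ℂ) ∂muH

noncomputable def gt (g : ℂ → ℝ) (M : E) : ℂ := (g (pr M) : ℂ)

/-- the generator of the horocycle flow -/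
noncomputable def XN (h : E → ℂ) (M : E) : ℂ := (X2 h M - X3 h M) / 2

/-- the window of a spectral parameter -/
noncomputable def wn (t : ℝ) : ℕ := max 1 ⌊t⌋₊

/-- periodisation -/
noncomputable def per (φ : ℂ → ℝ) (z : ℂ) : ℝ := ∑' γ : SL(2, ℤ), φ (mb (act γ one) z)

/-- Birkhoff averages along the geodesic flow -/
noncomputable def Av (Φ : ℂ → ℝ) (R : ℕ) (M : E) : ℝ :=
  (∑ k ∈ Finset.range R, Φ (pr (fl k M))) / R

/-- smooth with compact support in the upper half plane -/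
structure Tst (φ : ℂ → ℝ) : Prop where
  smooth : ContDiff ℝ (⊤ : ℕ∞) φ
  supp : ∃ K : Set ℂ, IsCompact K ∧ K ⊆ Up ∧ ∀ z, z ∉ K → φ z = 0

end Pool.Agent.MP_a28cf0_nt.Dec
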